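import Mathlib
import Pool.Agent.N659.HB.Stm8
set_option autoImplicit false

/-! SD/GS: geometric sums on the lattice. -/

namespace Pool.Agent.N866.SD.GS
open MeasureTheory Filter Pool.Agent.N659.HB
open scoped Topology ENNReal

theorem hasSum_Z (r : ℝ) (h0 : 0 ≤ r) (h1 : r < 1) (a : ℤ) :
    HasSum (fun n : ℤ => r ^ (n - a).natAbs) ((1 + r) / (1 - r)) := by
  have hg := hasSum_geometric_of_lt_one h0 h1
  have hr : 1 - r ≠ 0 := by linarith
  have e1 : HasSum (fun n : ℕ => r ^ ((n : ℤ)).natAbs) (1 - r)⁻¹ := by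
    simp only [Int.natAbs_natCast]
    exact hg
  have e2 : HasSum (fun n : ℕ => r ^ (-((n : ℤ) + 1)).natAbs) (r * (1 - r)⁻¹) := by
    have h' : (fun n : ℕ => r ^ (-((n : ℤ) + 1)).natAbs) = fun n : ℕ => r * r ^ n := by
      funext n
      rw [Int.natAbs_neg, show ((n : ℤ) + 1).natAbs = n + 1 by omega, pow_succ, mul_comm]
    rw [h']
    exact hg.mul_left r
  have e3 := HasSum.of_nat_of_neg_add_one (f := fun n : ℤ => r ^ n.natAbs) e1 e2
  have e4 : (1 - r)⁻¹ + r * (1 - r)⁻¹ = (1 + r) / (1 - r) := by field_simp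
  rw [e4] at e3
  have e5 := (Equiv.subRight a).hasSum_iff (f := fun n : ℤ => r ^ n.natAbs)
    (a := (1 + r) / (1 - r))
  exact e5.2 e3

theorem hasSum_prod (r : ℝ) (h0 : 0 ≤ r) (h1 : r < 1) : ∀ (d : ℕ) (a : Fin d → ℤ),
    HasSum (fun x : Fin d → ℤ => r ^ nd x a) (((1 + r) / (1 - r)) ^ d) := by
  intro d
  induction d with
  | zero =>
    intro a
    have h : (fun x : Fin 0 → ℤ => r ^ nd x a) = fun _ => 1 := by
      funext x
      unfold nd
      rw [Finset.univ_eq_empty, Finset.sum_empty, pow_zero]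
    rw [h, pow_zero]
    exact hasSum_unique (fun _ : Fin 0 → ℤ => (1 : ℝ))
  | succ d ih =>
    intro a
    have h2 := hasSum_Z r h0 h1 (a 0)
    have h3 := ih (fun i => a i.succ)
    have hp1 : (0 : ℤ → ℝ) ≤ fun n : ℤ => r ^ (n - a 0).natAbs := fun n => pow_nonneg h0 _
    have hp2 : (0 : (Fin d → ℤ) → ℝ) ≤ fun x : Fin d → ℤ => r ^ nd x (fun i => a i.succ) :=
      fun x => pow_nonneg h0 _
    have hs : Summable fun p : ℤ × (Fin d → ℤ) =>
        r ^ (p.1 - a 0).natAbs * r ^ nd p.2 (fun i => a i.succ) :=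
      Summable.mul_of_nonneg (f := fun n : ℤ => r ^ (n - a 0).natAbs)
        (g := fun x : Fin d → ℤ => r ^ nd x (fun i => a i.succ)) h2.summable h3.summable hp1 hp2
    have h4 := h2.mul h3 hs
    have h5 : ((fun x : Fin (d + 1) → ℤ => r ^ nd x a) ∘ (Fin.consEquiv fun _ : Fin (d + 1) => ℤ)) =
        fun p : ℤ × (Fin d → ℤ) => r ^ (p.1 - a 0).natAbs * r ^ nd p.2 (fun i => a i.succ) := by
      funext p
      show r ^ nd (Fin.cons p.1 p.2 : Fin (d + 1) → ℤ) a = _
      unfold nd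
      rw [Fin.sum_univ_succ, pow_add, Fin.cons_zero]
      simp only [Fin.cons_succ]
    have h6 := (Fin.consEquiv fun _ : Fin (d + 1) => ℤ).hasSum_iff
      (f := fun x : Fin (d + 1) → ℤ => r ^ nd x a) (a := ((1 + r) / (1 - r)) ^ (d + 1))
    refine h6.1 ?_
    rw [h5, pow_succ, mul_comm]
    exact h4

theorem main : S_GS := by
  intro d
  refine ⟨1 + 3 ^ d + 4 * d * 3 ^ d, by
    have : (0 : ℝ) ≤ 3 ^ d + 4 * d * 3 ^ d := by positivity
    linarith, ?_⟩
  intro r h0 h1 a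
  have hs := hasSum_prod r h0 (by linarith) d a
  set S : ℝ := (1 + r) / (1 - r) with hS
  have hr1 : 0 < 1 - r := by linarith
  have hS1 : 1 ≤ S := by rw [hS, le_div_iff₀ hr1]; linarith
  have hS4 : S - 1 ≤ 4 * r := by
    rw [hS, div_sub_one hr1.ne', div_le_iff₀ hr1]
    nlinarith
  have hS3 : S ≤ 3 := by linarith
  have hpow : ∀ k : ℕ, S ^ k - 1 ≤ (S - 1) * (k * 3 ^ k) := by
    intro k
    induction k with
    | zero => simp
    | succ k ih =>
      have h5 : (1 : ℝ) ≤ 3 ^ (k + 1) := one_le_pow₀ (by norm_num)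
      have h6 : (0 : ℝ) ≤ k * 3 ^ k := by positivity
      have h7 : S ^ k ≥ 1 := one_le_pow₀ hS1
      push_cast
      calc S ^ (k + 1) - 1 = S * (S ^ k - 1) + (S - 1) := by ring
        _ ≤ 3 * ((S - 1) * (k * 3 ^ k)) + (S - 1) * 3 ^ (k + 1) := by
          have h8 : S * (S ^ k - 1) ≤ 3 * ((S - 1) * (k * 3 ^ k)) := by
            calc S * (S ^ k - 1) ≤ 3 * (S ^ k - 1) :=
                  mul_le_mul_of_nonneg_right hS3 (by linarith)
              _ ≤ _ := by linarith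
          have h9 : S - 1 ≤ (S - 1) * 3 ^ (k + 1) := by nlinarith
          linarith
        _ = _ := by ring
  have hub : S ^ d ≤ 3 ^ d := pow_le_pow_left₀ (by linarith) hS3 d
  have hpos : (0 : ℝ) ≤ 4 * d * 3 ^ d := by positivity
  refine ⟨hs.summable, ?_, ?_⟩
  · rw [hs.tsum_eq]; linarith
  · have h5 := hs.summable.tsum_eq_add_tsum_ite a
    rw [hs.tsum_eq] at h5
    have h6 : nd a a = 0 := by simp [nd]
    rw [h6, pow_zero] at h5
    have h7 := hpow d
    have h8 : (S - 1) * (d * 3 ^ d) ≤ 4 * r * (d * 3 ^ d) :=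
      mul_le_mul_of_nonneg_right hS4 (by positivity)
    have h9 : (0 : ℝ) ≤ (1 + 3 ^ d) * r := by positivity
    have h10 : ∑' x : Fin d → ℤ, (if x = a then 0 else r ^ nd x a) = S ^ d - 1 := by linarith
    rw [h10]
    nlinarith
end Pool.Agent.N866.SD.GS
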