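import Mathlib
import Pool.Agent.N659.HB.Stm8
set_option autoImplicit false

/-! SD/RS: resampling of one site. -/

namespace Pool.Agent.N866.SD.RS
open MeasureTheory Filter Pool.Agent.W792.WA Pool.Agent.N659.HB
open scoped Topology ENNReal

/-- Resampling of one site. -/
theorem main : S_RS := by
  classical
  intro ν _ d x
  have hm : Measurable fun p : ((Fin d → ℤ) → ℝ) × ℝ => Function.update p.1 x p.2 := by
    rw [measurable_pi_iff]
    intro z
    by_cases hz : z = x
    · subst hz
      simpa using measurable_snd
    · simp only [Function.update_of_ne hz]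
      exact (measurable_pi_apply z).comp measurable_fst
  refine ⟨hm, ?_⟩
  show Measure.map _ _ = Measure.infinitePi fun _ => ν
  refine Measure.eq_infinitePi _ ?_
  intro s t ht
  rw [Measure.map_apply hm (MeasurableSet.pi s.countable_toSet fun i _ => ht i)]
  by_cases hx : x ∈ s
  · have h1 : (fun p : ((Fin d → ℤ) → ℝ) × ℝ => Function.update p.1 x p.2) ⁻¹'
        Set.pi (s : Set (Fin d → ℤ)) t =
        (Set.pi ((s.erase x : Finset (Fin d → ℤ)) : Set (Fin d → ℤ)) t) ×ˢ t x := by
      ext p
      simp only [Set.mem_preimage, Set.mem_pi, Set.mem_prod, Finset.mem_coe, Finset.mem_erase]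
      constructor
      · intro h
        refine ⟨fun i hi => ?_, ?_⟩
        · have := h i hi.2
          rwa [Function.update_of_ne hi.1] at this
        · have := h x hx
          rwa [Function.update_self] at this
      · rintro ⟨h2, h3⟩ i hi
        by_cases hix : i = x
        · subst hix
          rwa [Function.update_self]
        · rw [Function.update_of_ne hix]
          exact h2 i ⟨hix, hi⟩
    rw [h1, Measure.prod_prod]
    unfold Pn
    rw [Measure.infinitePi_pi _ (fun i _ => ht i), mul_comm]
    exact Finset.mul_prod_erase s (fun i => ν (t i)) hx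
  · have h1 : (fun p : ((Fin d → ℤ) → ℝ) × ℝ => Function.update p.1 x p.2) ⁻¹'
        Set.pi (s : Set (Fin d → ℤ)) t = (Set.pi (s : Set (Fin d → ℤ)) t) ×ˢ Set.univ := by
      ext p
      simp only [Set.mem_preimage, Set.mem_pi, Set.mem_prod, Finset.mem_coe, Set.mem_univ,
        and_true]
      refine forall₂_congr fun i hi => ?_
      rw [Function.update_of_ne (fun h => hx (by rw [← h]; exact hi))]
    rw [h1, Measure.prod_prod, measure_univ, mul_one]
    unfold Pn
    rw [Measure.infinitePi_pi _ (fun i _ => ht i)]
end Pool.Agent.N866.SD.RS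

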